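import Pool.Agent.W661.RC.Stm

/-!
# The innovations `g f g` have bounded sum
-/

set_option autoImplicit false

namespace Pool.Agent.W193.RC

open Matrix Pool.Agent.W661.RC
open scoped ComplexOrder

theorem pr_psd {d : ℕ} {f : Mt d} (hf : IsPr f) : f.PosSemidef := by
  have h := Matrix.posSemidef_conjTranspose_mul_self f
  rwa [hf.1, hf.2] at h

theorem pr_compl {d : ℕ} {f : Mt d} (hf : IsPr f) : (1 - f).PosSemidef := by
  have h := Matrix.posSemidef_conjTranspose_mul_self (1 - f)
  rw [Matrix.conjTranspose_sub, Matrix.conjTranspose_one, hf.1] at h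
  have h2 : (1 - f) * (1 - f) = 1 - f := by
    have := hf.2
    calc (1 - f) * (1 - f) = 1 - f - f + f * f := by noncomm_ring
      _ = 1 - f := by rw [this]; abel
  rwa [h2] at h

theorem conj_psd {d : ℕ} {a b : Mt d} (hb : bᴴ = b) (ha : a.PosSemidef) : (b * a * b).PosSemidef := by
  have h := ha.mul_mul_conjTranspose_same b
  rwa [hb] at h

theorem posdef {d : ℕ} {lam : ℝ} (hl : 0 < lam) {Q : Mt d} (hQ : Q.PosSemidef) :
    (1 + (lam : ℂ) • Q).PosDef := by
  refine Matrix.PosDef.add_posSemidef Matrix.PosDef.one ?_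
  exact hQ.smul (by exact_mod_cast hl.le)

theorem gg_mul {d : ℕ} {lam : ℝ} (hl : 0 < lam) {Q : Mt d} (hQ : Q.PosSemidef) :
    gg lam Q * (1 + (lam : ℂ) • Q) = 1 ∧ (1 + (lam : ℂ) • Q) * gg lam Q = 1 := by
  have h1 := (Matrix.isUnit_iff_isUnit_det _).1 (posdef hl hQ).isUnit
  exact ⟨Matrix.nonsing_inv_mul _ h1, Matrix.mul_nonsing_inv _ h1⟩

theorem gg_psd {d : ℕ} {lam : ℝ} (hl : 0 < lam) {Q : Mt d} (hQ : Q.PosSemidef) :
    (gg lam Q).PosSemidef := (posdef hl hQ).inv.posSemidef

theorem gg_compl {d : ℕ} {lam : ℝ} (hl : 0 < lam) {Q : Mt d} (hQ : Q.PosSemidef) :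
    (1 - gg lam Q).PosSemidef := by
  obtain ⟨h1, h2⟩ := gg_mul hl hQ
  have hg : (gg lam Q)ᴴ = gg lam Q := (gg_psd hl hQ).1
  have hQh : Qᴴ = Q := hQ.1
  have hl0 : (lam : ℂ) ≠ 0 := by exact_mod_cast hl.ne'
  set g := gg lam Q with hgdef
  have e1 : g + (lam : ℂ) • (g * Q) = 1 := by
    rw [← h1, mul_add, mul_one, mul_smul_comm]
  have e2 : g + (lam : ℂ) • (Q * g) = 1 := by
    rw [← h2, add_mul, one_mul, smul_mul_assoc]
  have e3 : g * Q = Q * g := by
    have : (lam : ℂ) • (g * Q) = (lam : ℂ) • (Q * g) := add_left_cancel (e1.trans e2.symm)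
    exact smul_right_injective _ hl0 this
  have e4 : 1 - g = (lam : ℂ) • (g * Q * g) + ((lam : ℂ) ^ 2) • ((g * Q)ᴴ * (g * Q)) := by
    have h3 : 1 - g = (lam : ℂ) • (g * Q) := by rw [← e1]; abel
    rw [h3, Matrix.conjTranspose_mul, hg, hQh]
    calc (lam : ℂ) • (g * Q) = (lam : ℂ) • (g * Q * (g + (lam : ℂ) • (g * Q))) := by
          rw [e1, mul_one]
      _ = (lam : ℂ) • (g * Q * g) + ((lam : ℂ) ^ 2) • (Q * g * (g * Q)) := by
          rw [mul_add, smul_add, mul_smul_comm, smul_smul, ← pow_two]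
          congr 2
          rw [e3]
  rw [e4]
  refine ((conj_psd hg hQ).smul (by exact_mod_cast hl.le)).add
    ((Matrix.posSemidef_conjTranspose_mul_self _).smul ?_)
  have : (0 : ℂ) ≤ ((lam ^ 2 : ℝ) : ℂ) := by exact_mod_cast (sq_nonneg lam)
  simpa using this

theorem step {d : ℕ} {lam : ℝ} (hl : 0 < lam) {Q f : Mt d} (hQ : Q.PosSemidef) (hf : IsPr f) :
    ((((1 + 1 / lam : ℝ)) : ℂ) • (gg lam Q - gg lam (Q + f)) -
      gg lam Q * f * gg lam Q).PosSemidef := by
  have hQ' : (Q + f).PosSemidef := hQ.add (pr_psd hf)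
  obtain ⟨h1, h2⟩ := gg_mul hl hQ
  obtain ⟨h3, h4⟩ := gg_mul hl hQ'
  have hg : (gg lam Q)ᴴ = gg lam Q := (gg_psd hl hQ).1
  have hgp := gg_psd hl hQ
  have hgc := gg_compl hl hQ
  have hg' : (gg lam (Q + f))ᴴ = gg lam (Q + f) := (gg_psd hl hQ').1
  have hl0 : (lam : ℂ) ≠ 0 := by exact_mod_cast hl.ne'
  have hff := hf.2
  have hfh := hf.1
  set g := gg lam Q with hgdef
  set g' := gg lam (Q + f) with hgdef'
  set l : ℂ := (lam : ℂ) with hldef
  have hA : (1 + l • (Q + f)) - (1 + l • Q) = l • f := by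
    rw [smul_add]; abel
  have e1 : g - g' = l • (g * f * g') := by
    calc g - g' = g * ((1 + l • (Q + f)) * g') - (g * (1 + l • Q)) * g' := by
          rw [h4, h1, mul_one, one_mul]
      _ = g * ((1 + l • (Q + f)) - (1 + l • Q)) * g' := by noncomm_ring
      _ = l • (g * f * g') := by rw [hA, mul_smul_comm, smul_mul_assoc]
  have e2 : g - g' = l • (g' * f * g) := by
    calc g - g' = (g' * (1 + l • (Q + f))) * g - g' * ((1 + l • Q) * g) := by
          rw [h3, h2, mul_one, one_mul]
      _ = g' * ((1 + l • (Q + f)) - (1 + l • Q)) * g := by noncomm_ring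
      _ = l • (g' * f * g) := by rw [hA, mul_smul_comm, smul_mul_assoc]
  set X := f * g * f with hX
  set Y := f * g' * f with hY
  have hXY : X - Y = l • (X * Y) := by
    have h5 : X * Y = f * (g * f * g') * f := by
      rw [hX, hY]
      calc f * g * f * (f * g' * f) = f * g * (f * f) * g' * f := by noncomm_ring
        _ = f * (g * f * g') * f := by rw [hff]; noncomm_ring
    calc X - Y = f * (g - g') * f := by rw [hX, hY]; noncomm_ring
      _ = l • (X * Y) := by rw [e1, h5, mul_smul_comm, smul_mul_assoc]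
  have hYX : X - Y = l • (Y * X) := by
    have h5 : Y * X = f * (g' * f * g) * f := by
      rw [hX, hY]
      calc f * g' * f * (f * g * f) = f * g' * (f * f) * g * f := by noncomm_ring
        _ = f * (g' * f * g) * f := by rw [hff]; noncomm_ring
    calc X - Y = f * (g - g') * f := by rw [hX, hY]; noncomm_ring
      _ = l • (Y * X) := by rw [e2, h5, mul_smul_comm, smul_mul_assoc]
  set Z := 1 - l • Y with hZ
  have hXZ : Z + l • (X * Z) = 1 := by
    have h5 : l • (X * Z) = l • X - l • (l • (X * Y)) := by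
      rw [hZ, mul_sub, mul_one, mul_smul_comm, smul_sub]
    rw [h5, ← hXY, hZ, smul_sub]
    abel
  have hZX : Z + l • (Z * X) = 1 := by
    have h5 : l • (Z * X) = l • X - l • (l • (Y * X)) := by
      rw [hZ, sub_mul, one_mul, smul_mul_assoc, smul_sub]
    rw [h5, ← hYX, hZ, smul_sub]
    abel
  have hYh : Yᴴ = Y := by
    rw [hY, Matrix.conjTranspose_mul, Matrix.conjTranspose_mul, hfh, hg', mul_assoc]
  have hXh : Xᴴ = X := by
    rw [hX, Matrix.conjTranspose_mul, Matrix.conjTranspose_mul, hfh, hg, mul_assoc]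
  have hZh : Zᴴ = Z := by
    rw [hZ, Matrix.conjTranspose_sub, Matrix.conjTranspose_one, Matrix.conjTranspose_smul, hYh,
      hldef]
    simp
  have hXp : X.PosSemidef := conj_psd hfh hgp
  have hXc : (1 - X).PosSemidef := by
    have h5 : 1 - X = (1 - f) + f * (1 - g) * f := by
      have h6 : f * (1 - g) * f = f * f - f * g * f := by noncomm_ring
      rw [h6, hff, hX]; abel
    rw [h5]
    exact (pr_compl hf).add (conj_psd hfh hgc)
  have hXch : (1 - X)ᴴ = 1 - X := hXc.1
  -- `Z (1 - X)` is positive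
  have hW : Z * (1 - X) = Z * (1 - X) * Z +
      l • (Z * (X * (1 - X) * X) * Z + Z * ((1 - X) * X * (1 - X)) * Z) := by
    calc Z * (1 - X) = Z * (1 - X) * (Z + l • (X * Z)) := by rw [hXZ, mul_one]
      _ = Z * (1 - X) * Z + l • (Z * ((1 - X) * X) * Z) := by
          rw [mul_add, mul_smul_comm]
          congr 2
          noncomm_ring
      _ = _ := by
          congr 2
          have h5 : (1 - X) * X = X * (1 - X) * X + (1 - X) * X * (1 - X) := by noncomm_ring
          rw [h5]
          noncomm_ring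
  have hWp : (Z * (1 - X)).PosSemidef := by
    rw [hW]
    refine (conj_psd hZh hXc).add (Matrix.PosSemidef.smul ?_ (by rw [hldef]; exact_mod_cast hl.le))
    exact (conj_psd hZh (conj_psd hXh hXc)).add (conj_psd hZh (conj_psd hXch hXp))
  -- the difference
  have hgfZ : g - g' = l • (g * f * Z * (f * g)) := by
    have h5 : g * f * Z * (f * g) = g * f * g - l • (g * f * g' * f * g) := by
      rw [hZ, hY]
      calc g * f * (1 - l • (f * g' * f)) * (f * g)
          = g * (f * f) * g - l • (g * (f * f) * g' * (f * f) * g) := by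
            rw [mul_sub, mul_one, sub_mul, mul_smul_comm, smul_mul_assoc]
            congr 1
            · noncomm_ring
            · congr 1
              noncomm_ring
        _ = g * f * g - l • (g * f * g' * f * g) := by rw [hff]
    have h6 : g' = g - l • (g' * f * g) := by rw [← e2]; abel
    calc g - g' = l • (g * f * g') := e1
      _ = l • (g * f * (g - l • (g' * f * g))) := by rw [← h6]
      _ = l • (g * f * Z * (f * g)) := by
          rw [h5, mul_sub, mul_smul_comm]
          congr 3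
          noncomm_ring
  clear_value Z
  have hfin : (((1 + 1 / lam : ℝ)) : ℂ) • (g - g') - g * f * g =
      l • ((f * g)ᴴ * (Z * (1 - X)) * (f * g)) := by
    have h5 : l • (Z * (1 - X)) = (l + 1) • Z - 1 := by
      have h6 : l • (Z * X) = 1 - Z := by rw [← hZX]; abel
      rw [mul_sub, mul_one, smul_sub, h6, add_smul, one_smul]
      abel
    have h7 : (f * g)ᴴ = g * f := by rw [Matrix.conjTranspose_mul, hg, hfh]
    have h8 : l • ((f * g)ᴴ * (Z * (1 - X)) * (f * g)) = g * f * (l • (Z * (1 - X))) * (f * g) := by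
      rw [h7, mul_smul_comm, smul_mul_assoc]
    have h9 : (((1 + 1 / lam : ℝ)) : ℂ) * l = l + 1 := by
      rw [hldef]
      have h10 : (((1 + 1 / lam : ℝ)) : ℂ) * (lam : ℂ) = (((1 + 1 / lam) * lam : ℝ) : ℂ) := by
        push_cast; ring
      rw [h10]
      have h11 : (1 + 1 / lam) * lam = lam + 1 := by field_simp
      rw [h11]
      push_cast; ring
    have h12 : g * f * g = g * f * (f * g) := by
      calc g * f * g = g * (f * f) * g := by rw [hff]
        _ = g * f * (f * g) := by noncomm_ring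
    rw [h8, h5, hgfZ, smul_smul, h9, h12, mul_sub, sub_mul, mul_one, mul_smul_comm, smul_mul_assoc]
  rw [hfin]
  exact (hWp.conjTranspose_mul_mul_same (f * g)).smul (by rw [hldef]; exact_mod_cast hl.le)

theorem Qs_psd {d : ℕ} {f : ℕ → Mt d} (n : ℕ) (hf : ∀ i < n, IsPr (f i)) : (Qs f n).PosSemidef := by
  unfold Qs
  exact Matrix.posSemidef_sum _ fun i hi => pr_psd (hf i (Finset.mem_range.1 hi))

theorem main : ResAP := by
  intro d n f lam hlam
  have hl : 0 < lam := by linarith
  induction n with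
  | zero =>
    intro _
    unfold Le
    have h0 : gg lam (Qs f 0) = 1 := by
      unfold gg Qs
      simp
    rw [h0]
    simpa using (Matrix.PosSemidef.zero : (0 : Mt d).PosSemidef)
  | succ n ih =>
    intro hf
    have h1 := ih (fun i hi => hf i (by omega))
    have h2 := step hl (Qs_psd n (fun i hi => hf i (by omega))) (hf n (by omega))
    unfold Le at h1 ⊢
    have h3 : Qs f n + f n = Qs f (n + 1) := by
      unfold Qs
      rw [Finset.sum_range_succ]
    rw [h3] at h2
    have h4 := h1.add h2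
    rw [Finset.sum_range_succ]
    convert h4 using 1
    rw [smul_sub, smul_sub, smul_sub]
    abel

end Pool.Agent.W193.RC
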